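import Pool.Agent.TH133.Hyper

/-!
# Self-dual Chow-Kunneth decompositions of products with a hyperbolic factor

`𝒱` is a class of smooth projective geometrically irreducible varieties over the field `k` closed
under products (for example all of them), `C` the Chow groups with rational coefficients (in the
form of their formal properties, `IsChowProj`) and `H` a Weil cohomology theory (`IsWeilProj`).

Let `X` be a variety with a Chow-Kunneth decomposition, not necessarily self-dual, and let `P` be a
variety whose diagonal is `∑ (a_s × b_s + b_s × a_s)` for classes `a_s`, `b_s` with intersection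
numbers `(a_s, b_t) = δ_{st}`, `(a_s, a_t) = (b_s, b_t) = 0` (`HyperbolicDiagonal`): the projective
line, all projective spaces of odd dimension, split quadrics of odd dimension, full flag varieties, ...
Then `X × P` has a self-dual Chow-Kunneth decomposition.

For the proof, decompose `h(X × P) = ⊕ (h(X)(r_s) ⊕ h(X)(dim P - r_s))`, use the given Chow-Kunneth
decomposition of `X` in the first summands and the transposed one in the second summands.
-/

open CategoryTheory AlgebraicGeometry

set_option autoImplicit false

universe u v w

namespace Pool.Agent.Results.MP_8a7054_ag.HyperbolicFactor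

open Pool.Agent.H914 Pool.Agent.W492.BB Pool.Agent.TH133

/-- If `X` has a Chow-Kunneth decomposition and the diagonal of `P` is hyperbolic, then `X × P` has a
self-dual Chow-Kunneth decomposition. -/
theorem result {k : Type u} [Field k] {𝒱 : VarClass k} (C : TheoryData.{u, v, 0} 𝒱 ℚ)
    [IsChowProj C] {K : Type w} [Field K] (H : WeilTheoryData.{u, v, w} C K) [IsWeilProj H]
    (X P : 𝒱.Obj) (hX : ∃ p : ℕ → C.A (X.prod X), IsCK H X p) (hP : HyperbolicDiagonal C P) :
    ∃ π : ℕ → C.A ((X.prod P).prod (X.prod P)), IsCK H (X.prod P) π ∧ IsSelfDual C π := by
  obtain ⟨p, hp⟩ := hX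
  exact exists_selfDual_prod X P hP hp

end Pool.Agent.Results.MP_8a7054_ag.HyperbolicFactor
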