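import Pool.Agent.TH133.SelfDual

/-!
# Self-dual Chow-Kunneth decompositions and the independence of `F^0`

`𝒱` is a class of smooth projective geometrically irreducible varieties over the field `k` closed
under products (for example all of them), `C` the Chow groups with rational coefficients (in the
form of their formal properties, `IsChowProj`) and `H` a Weil cohomology theory (`IsWeilProj`).

Let `X` be a variety with a Chow-Kunneth decomposition. If the step `F^0` of the filtration on
`CH^i(X × X)` is the same for all Chow-Kunneth decompositions of `X × X` (`MurreC0`), then `X` has a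
self-dual Chow-Kunneth decomposition. The hypothesis is a consequence of the first half of
Murre's conjecture (B) for `X × X`, and of Murre's conjecture (C) for `X × X`; no nilpotence of
homologically trivial correspondences is used.
-/

open CategoryTheory AlgebraicGeometry

set_option autoImplicit false

universe u v w

namespace Pool.Agent.Results.MP_8a7054_ag.SelfDualFromIndependence

open Pool.Agent.H914 Pool.Agent.W492.BB Pool.Agent.TH133

/-- If `X` has a Chow-Kunneth decomposition and `F^0 CH^i(X × X)` is independent of the Chow-Kunneth
decomposition of `X × X` for all `i`, then `X` has a self-dual Chow-Kunneth decomposition. -/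
theorem result {k : Type u} [Field k] {𝒱 : VarClass k} (C : TheoryData.{u, v, 0} 𝒱 ℚ)
    [IsChowProj C] {K : Type w} [Field K] (H : WeilTheoryData.{u, v, w} C K) [IsWeilProj H]
    (X : 𝒱.Obj) (hX : ∃ p : ℕ → C.A (X.prod X), IsCK H X p) (h0 : MurreC0 H (X.prod X)) :
    ∃ π : ℕ → C.A (X.prod X), IsCK H X π ∧ IsSelfDual C π := by
  obtain ⟨p, hp⟩ := hX
  exact exists_selfDual_of_B0 X (murreB0_of_C0 _ h0) hp

end Pool.Agent.Results.MP_8a7054_ag.SelfDualFromIndependence
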